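import Pool.Agent.Helper10.CI.Chain
import Pool.Agent.Helper10.CI.DimArg
import Pool.Agent.Helper8.LG.Poly

/-!
# HS: the directions in which the line moves

Let `l` be the line through `x` and `y`, `w1` a vector outside of `l` such that the derivatives of
all `F_i` in the direction `w1` vanish on `l`, and assume that `D_g x` is proportional to `w` for all
`g` vanishing on `l`. Differentiating `d_(w1) F_i = 0` on `l` in the directions `g = h A`, `h` linear
with `h = 0` on `l`, `h(w1) = 1`, shows that there are many `g` vanishing on `l` with `D_g x = 0`,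
`D_g y` not in `l`.
-/

set_option autoImplicit false

namespace Pool.Agent.Helper50.HS

open scoped BigOperators
open MvPolynomial
open Pool.Agent.Helper8.LG (Bdd form mon Ix)
open Pool.Agent.Helper49.LN (cP mo hf pl)
open Pool.Agent.Helper6.QS (dv ev lf dt Par RatP)
open Pool.Agent.Helper10.CI

section

variable {Ω : Type*} [Field Ω] {N r : ℕ} {d : Fin r → ℕ}
  {D : Ix (Fin (N + 1)) d → Derivation ℤ Ω Ω} {a : Ix (Fin (N + 1)) d → Ω}

/-- the derivation in the direction `g` -/
noncomputable def dg (D : Ix (Fin (N + 1)) d → Derivation ℤ Ω Ω)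
    (g : Fin r → MvPolynomial (Fin (N + 1)) Ω) : Derivation ℤ Ω Ω :=
  ∑ i, ∑ J : Sym (Fin (N + 1)) (d i),
    coeff (Multiset.toFinsupp (J : Multiset (Fin (N + 1)))) (g i) • D ⟨i, J⟩

theorem der_sum {ι : Type*} (s : Finset ι) (f : ι → Derivation ℤ Ω Ω) (z : Ω) :
    (∑ i ∈ s, f i) z = ∑ i ∈ s, f i z := by
  classical
  induction s using Finset.induction_on with
  | empty => rw [Finset.sum_empty, Finset.sum_empty]; rfl
  | insert b s hb ih => rw [Finset.sum_insert hb, Finset.sum_insert hb, ← ih]; rfl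

theorem dg_apply (g : Fin r → MvPolynomial (Fin (N + 1)) Ω) (z : Ω) :
    dg D g z = ∑ i, ∑ J : Sym (Fin (N + 1)) (d i),
      coeff (Multiset.toFinsupp (J : Multiset (Fin (N + 1)))) (g i) * D ⟨i, J⟩ z := by
  rw [dg, der_sum]
  refine Finset.sum_congr rfl fun i _ => ?_
  rw [der_sum]
  rfl

theorem dvC_dg (v : Fin (N + 1) → Ω) (g : Fin r → MvPolynomial (Fin (N + 1)) Ω) (l : Fin (N + 1)) :
    dvC D v g l = dg D g (v l) := by
  rw [dg_apply, dvC_apply, Finset.sum_apply]
  refine Finset.sum_congr rfl fun i _ => ?_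
  rw [dv, Pool.Agent.Helper49.LN.cP_apply, Finset.sum_apply]
  rfl

theorem dg_a (hD : ∀ s t : Ix (Fin (N + 1)) d, D t (a s) = if s = t then 1 else 0)
    (g : Fin r → MvPolynomial (Fin (N + 1)) Ω) (i : Fin r) (J : Sym (Fin (N + 1)) (d i)) :
    dg D g (a ⟨i, J⟩) = coeff (Multiset.toFinsupp (J : Multiset (Fin (N + 1)))) (g i) := by
  classical
  rw [dg_apply, Finset.sum_eq_single i]
  · rw [Finset.sum_eq_single J]
    · rw [hD, if_pos rfl, mul_one]
    · intro K _ hK
      rw [hD, if_neg, mul_zero]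
      intro h
      exact hK (by simpa using h.symm)
    · intro h
      exact absurd (Finset.mem_univ J) h
  · intro j _ hj
    refine Finset.sum_eq_zero fun K _ => ?_
    rw [hD, if_neg, mul_zero]
    intro h
    exact hj (congrArg Sigma.fst h).symm
  · intro h
    exact absurd (Finset.mem_univ i) h

theorem Chain_D_smul (δ : Derivation ℤ Ω Ω) (c : Ω) (f : MvPolynomial (Fin (N + 1)) Ω) :
    Chain_D δ (c • f) = δ c • f + c • Chain_D δ f := by
  ext m
  rw [Chain_coeff, coeff_smul, coeff_add, coeff_smul, coeff_smul, Chain_coeff, smul_eq_mul,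
    Derivation.leibniz]
  simp only [smul_eq_mul]
  ring

theorem Chain_D_pderiv (δ : Derivation ℤ Ω Ω) (l : Fin (N + 1))
    (f : MvPolynomial (Fin (N + 1)) Ω) :
    Chain_D δ (pderiv l f) = pderiv l (Chain_D δ f) := by
  ext m
  rw [Chain_coeff, coeff_pderiv, coeff_pderiv, Chain_coeff, Derivation.leibniz]
  have h1 : δ ((m l : Ω) + 1) = 0 := by
    rw [map_add, Derivation.map_natCast, Derivation.map_one_eq_zero, add_zero]
  rw [h1, smul_zero, zero_add, smul_eq_mul, mul_comm]

theorem Chain_D_sum (δ : Derivation ℤ Ω Ω) {ι : Type*} (s : Finset ι)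
    (f : ι → MvPolynomial (Fin (N + 1)) Ω) :
    Chain_D δ (∑ i ∈ s, f i) = ∑ i ∈ s, Chain_D δ (f i) := by
  ext m
  rw [Chain_coeff, coeff_sum, coeff_sum, map_sum]
  exact Finset.sum_congr rfl fun i _ => (Chain_coeff _ _ _).symm

/-- the derivative of the form -/
theorem Chain_D_Fp (hD : ∀ s t : Ix (Fin (N + 1)) d, D t (a s) = if s = t then 1 else 0)
    (g : Fin r → MvPolynomial (Fin (N + 1)) Ω) (hg : ∀ i, (g i).IsHomogeneous (d i)) (i : Fin r) :
    Chain_D (dg D g) (Fp a i) = g i := by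
  classical
  rw [Fp, Chain_D_sum]
  have h1 : ∀ J : Sym (Fin (N + 1)) (d i), Chain_D (dg D g)
      (a ⟨i, J⟩ • mo Ω (J : Multiset (Fin (N + 1)))) =
      monomial (Multiset.toFinsupp (J : Multiset (Fin (N + 1))))
        (coeff (Multiset.toFinsupp (J : Multiset (Fin (N + 1)))) (g i)) := by
    intro J
    rw [Pool.Agent.Helper49.LN.mo_eq, smul_monomial, smul_eq_mul, mul_one, Chain_monomial,
      dg_a hD]
  rw [Finset.sum_congr rfl fun J _ => h1 J]
  ext m
  rw [coeff_sum]
  by_cases hm : m.degree = d i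
  · obtain ⟨J, hJ⟩ := Pool.Agent.Helper8.LG.poly_exists_sym m hm
    rw [Finset.sum_eq_single J]
    · rw [coeff_monomial, if_pos hJ, hJ]
    · intro K _ hK
      rw [coeff_monomial, if_neg]
      intro h
      refine hK (Sym.coe_injective ?_)
      exact Multiset.toFinsupp.injective (h.trans hJ.symm)
    · intro h
      exact absurd (Finset.mem_univ J) h
  · rw [(hg i).coeff_eq_zero hm]
    refine Finset.sum_eq_zero fun K _ => ?_
    rw [coeff_monomial, if_neg]
    rintro rfl
    refine hm ?_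
    rw [Pool.Agent.Helper49.LN.toFinsupp_degree]
    exact K.2

theorem ph_X (x y : Fin (N + 1) → Ω) (β l : Fin (N + 1)) :
    Chain_ph x y β (X l) = x l • X 0 + y l • X β := by
  rw [Chain_ph, aeval_X]

/-- `∑ u_l ∂_l f` on the line -/
noncomputable def kap (x y : Fin (N + 1) → Ω) (β : Fin (N + 1))
    (f : MvPolynomial (Fin (N + 1)) Ω) (u : Fin (N + 1) → Ω) : MvPolynomial (Fin (N + 1)) Ω :=
  ∑ l, u l • Chain_ph x y β (pderiv l f)

theorem kap_add (x y : Fin (N + 1) → Ω) (β : Fin (N + 1)) (f : MvPolynomial (Fin (N + 1)) Ω)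
    (u v : Fin (N + 1) → Ω) : kap x y β f (u + v) = kap x y β f u + kap x y β f v := by
  unfold kap
  rw [← Finset.sum_add_distrib]
  exact Finset.sum_congr rfl fun l _ => by rw [Pi.add_apply, add_smul]

theorem kap_smul (x y : Fin (N + 1) → Ω) (β : Fin (N + 1)) (f : MvPolynomial (Fin (N + 1)) Ω)
    (c : Ω) (u : Fin (N + 1) → Ω) : kap x y β f (c • u) = c • kap x y β f u := by
  unfold kap
  rw [Finset.smul_sum]
  exact Finset.sum_congr rfl fun l _ => by rw [Pi.smul_apply, smul_eq_mul, mul_smul]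

theorem kap_x (x y : Fin (N + 1) → Ω) (β : Fin (N + 1)) (hβ : β ≠ 0)
    (f : MvPolynomial (Fin (N + 1)) Ω) (hf : Chain_ph x y β f = 0) : kap x y β f x = 0 := by
  have h := Chain_rule (Chain_ph x y β) (fun f => pderiv 0 f) (fun _ => 0)
    (fun f g => map_add _ f g)
    (fun f g => by
      simp only [Derivation.leibniz, smul_eq_mul]
      ring) (fun f g => by simp) (fun f l => by simp)
    (fun c => by simp [Chain_ph]) f
  rw [hf] at h
  simp only [map_zero, zero_add] at h
  rw [kap]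
  refine Eq.trans (Finset.sum_congr rfl fun l _ => ?_) h.symm
  have h3 : pderiv 0 (Chain_ph x y β (X l)) = C (x l) := by
    rw [ph_X, map_add, smul_eq_C_mul, smul_eq_C_mul, pderiv_C_mul, pderiv_C_mul,
      pderiv_X_self, pderiv_X_of_ne hβ, mul_one, mul_zero, add_zero]
  rw [h3, smul_eq_C_mul, mul_comm]

theorem kap_y (x y : Fin (N + 1) → Ω) (β : Fin (N + 1)) (hβ : β ≠ 0)
    (f : MvPolynomial (Fin (N + 1)) Ω) (hf : Chain_ph x y β f = 0) : kap x y β f y = 0 := by
  have h := Chain_rule (Chain_ph x y β) (fun f => pderiv β f) (fun _ => 0)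
    (fun f g => map_add _ f g)
    (fun f g => by
      simp only [Derivation.leibniz, smul_eq_mul]
      ring) (fun f g => by simp) (fun f l => by simp)
    (fun c => by simp [Chain_ph]) f
  rw [hf] at h
  simp only [map_zero, zero_add] at h
  rw [kap]
  refine Eq.trans (Finset.sum_congr rfl fun l _ => ?_) h.symm
  have h3 : pderiv β (Chain_ph x y β (X l)) = C (y l) := by
    rw [ph_X, map_add, smul_eq_C_mul, smul_eq_C_mul, pderiv_C_mul, pderiv_C_mul,
      pderiv_X_self, pderiv_X_of_ne hβ.symm, mul_one, mul_zero, zero_add]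
  rw [h3, smul_eq_C_mul, mul_comm]

/-- the derivative of `d_(w1) F_i = 0` on the line -/
theorem hess_id (hD : ∀ s t : Ix (Fin (N + 1)) d, D t (a s) = if s = t then 1 else 0)
    (x y w1 : Fin (N + 1) → Ω) (β : Fin (N + 1))
    (hw1 : ∀ i, Chain_ph x y β (pdF a w1 i) = 0) (g : Fin r → MvPolynomial (Fin (N + 1)) Ω)
    (hg : ∀ i, (g i).IsHomogeneous (d i)) (i : Fin r) :
    Chain_ph x y β (pdF a (dvC D w1 g) i) + Chain_ph x y β (∑ l, w1 l • pderiv l (g i)) +
      (kap x y β (pdF a w1 i) (dvC D x g) * X 0 + kap x y β (pdF a w1 i) (dvC D y g) * X β) =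
      0 := by
  have h := Chain_rule (Chain_ph x y β) (Chain_D (dg D g)) (Chain_D (dg D g))
    (Chain_add _) (Chain_mul _) (Chain_add _)
    (fun f l => by
      rw [Chain_mul]
      have h1 : Chain_D (dg D g) (X l : MvPolynomial (Fin (N + 1)) Ω) = 0 := by
        rw [X, Chain_monomial, Derivation.map_one_eq_zero, map_zero]
      rw [h1, mul_zero, add_zero])
    (fun c => by
      have h1 : ∀ c : Ω, Chain_ph x y β (C c : MvPolynomial (Fin (N + 1)) Ω) = C c := by
        intro c
        rw [Chain_ph, algHom_C, algebraMap_eq]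
      rw [h1]
      have h2 : Chain_D (dg D g) (C c : MvPolynomial (Fin (N + 1)) Ω) = C (dg D g c) := by
        rw [C_apply, Chain_monomial, C_apply]
      rw [h2, h1]) (pdF a w1 i)
  have h0 : Chain_D (dg D g) (0 : MvPolynomial (Fin (N + 1)) Ω) = 0 := by
    ext m
    rw [Chain_coeff, coeff_zero, map_zero]
  rw [hw1, h0] at h
  have h1 : Chain_D (dg D g) (pdF a w1 i) = pdF a (dvC D w1 g) i +
      ∑ l, w1 l • pderiv l (g i) := by
    rw [pdF, Chain_D_sum, pdF, ← Finset.sum_add_distrib]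
    refine Finset.sum_congr rfl fun l _ => ?_
    rw [Chain_D_smul, Chain_D_pderiv, Chain_D_Fp hD g hg, dvC_dg]
  have h2 : ∀ l, Chain_D (dg D g) (Chain_ph x y β (X l)) =
      dvC D x g l • X 0 + dvC D y g l • X β := by
    intro l
    have h3 : ∀ j : Fin (N + 1), Chain_D (dg D g) (X j : MvPolynomial (Fin (N + 1)) Ω) = 0 := by
      intro j
      rw [X, Chain_monomial, Derivation.map_one_eq_zero, map_zero]
    rw [ph_X, Chain_add, Chain_D_smul, Chain_D_smul, h3, h3, smul_zero, smul_zero, add_zero,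
      add_zero, dvC_dg, dvC_dg]
  rw [h1, map_add] at h
  simp only [h2] at h
  rw [h]
  congr 1
  rw [kap, kap, Finset.sum_mul, Finset.sum_mul, ← Finset.sum_add_distrib]
  refine Finset.sum_congr rfl fun l _ => ?_
  simp only [smul_eq_C_mul]
  ring

theorem psi_zero_iff (x y : Fin (N + 1) → Ω) (β : Fin (N + 1)) (hβ : β ≠ 0)
    (f : MvPolynomial (Fin (N + 1)) Ω) : psi x y β f = 0 ↔ Chain_ph x y β f = 0 := by
  constructor
  · intro h
    rw [← Chain_th_psi x y β hβ, h, map_zero]
  · intro h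
    rw [← Chain_rh_ph x y β hβ, h, map_zero]

theorem ph_lf (x y ζ : Fin (N + 1) → Ω) (β : Fin (N + 1)) (hζx : dt ζ x = 0)
    (hζy : dt ζ y = 0) : Chain_ph x y β (lf ζ) = 0 := by
  have h1 : Chain_ph x y β (lf ζ) = C (dt ζ x) * X 0 + C (dt ζ y) * X β := by
    rw [lf, map_sum, dt, dt, map_sum, map_sum, Finset.sum_mul, Finset.sum_mul,
      ← Finset.sum_add_distrib]
    refine Finset.sum_congr rfl fun l _ => ?_
    rw [map_smul, ph_X]
    simp only [smul_eq_C_mul, C_mul]
    ring
  rw [h1, hζx, hζy, C_0, zero_mul, zero_mul, add_zero]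

theorem pder_lf (ζ w1 : Fin (N + 1) → Ω) (A : MvPolynomial (Fin (N + 1)) Ω) :
    ∑ l, w1 l • pderiv l (lf ζ * A) = dt ζ w1 • A + lf ζ * ∑ l, w1 l • pderiv l A := by
  have h1 : ∀ l, pderiv l (lf ζ : MvPolynomial (Fin (N + 1)) Ω) = C (ζ l) := by
    intro l
    rw [lf, map_sum, Finset.sum_eq_single l]
    · rw [smul_eq_C_mul, pderiv_C_mul, pderiv_X_self, mul_one]
    · intro k _ hk
      rw [smul_eq_C_mul, pderiv_C_mul, pderiv_X_of_ne hk, mul_zero]
    · intro h
      exact absurd (Finset.mem_univ l) h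
  rw [dt, Finset.sum_smul, Finset.mul_sum, ← Finset.sum_add_distrib]
  refine Finset.sum_congr rfl fun l _ => ?_
  rw [Derivation.leibniz, h1]
  simp only [smul_eq_mul, smul_eq_C_mul, C_mul]
  ring

/-- the derivatives of the forms, restricted to the line -/
noncomputable def delL (a : Ix (Fin (N + 1)) d → Ω) (x y : Fin (N + 1) → Ω) (β : Fin (N + 1)) :
    (Fin (N + 1) → Ω) →ₗ[Ω] (Fin r → MvPolynomial (Fin (N + 1)) Ω) where
  toFun v := fun i => Chain_ph x y β (pdF a v i)
  map_add' u v := by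
    funext i
    show Chain_ph x y β (pdF a (u + v) i) = Chain_ph x y β (pdF a u i) +
      Chain_ph x y β (pdF a v i)
    rw [← map_add]
    congr 1
    unfold pdF
    rw [← Finset.sum_add_distrib]
    exact Finset.sum_congr rfl fun k _ => by rw [Pi.add_apply, add_smul]
  map_smul' c u := by
    funext i
    show Chain_ph x y β (pdF a (c • u) i) = c • Chain_ph x y β (pdF a u i)
    rw [← map_smul]
    congr 1
    unfold pdF
    rw [Finset.smul_sum]
    exact Finset.sum_congr rfl fun k _ => by rw [Pi.smul_apply, smul_eq_mul, mul_smul]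

theorem delL_apply (x y : Fin (N + 1) → Ω) (β : Fin (N + 1)) (v : Fin (N + 1) → Ω) (i : Fin r) :
    delL a x y β v i = Chain_ph x y β (pdF a v i) := rfl

/-- the monomials on the line -/
noncomputable def mon2 (d : Fin r → ℕ) (β : Fin (N + 1)) :
    (Σ i : Fin r, Fin (d i)) → (Fin r → MvPolynomial (Fin (N + 1)) Ω) :=
  fun s => sg s.1 (X 0 ^ (d s.1 - 1 - (s.2 : ℕ)) * X β ^ (s.2 : ℕ))

theorem mon2_li (β : Fin (N + 1)) (hβ : β ≠ 0) : LinearIndependent Ω (mon2 (Ω := Ω) d β) := by
  classical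
  rw [Fintype.linearIndependent_iff]
  intro c hc s
  obtain ⟨i, j⟩ := s
  have h1 := congrArg (coeff (Finsupp.single 0 (d i - 1 - (j : ℕ)) + Finsupp.single β (j : ℕ)))
    (congrFun hc i)
  rw [Finset.sum_apply, coeff_sum, Pi.zero_apply, coeff_zero] at h1
  rw [Finset.sum_eq_single (⟨i, j⟩ : Σ i : Fin r, Fin (d i))] at h1
  · rw [Pi.smul_apply, coeff_smul, mon2, sg, Pi.single_eq_same, X_pow_eq_monomial,
      X_pow_eq_monomial, monomial_mul, one_mul, coeff_monomial, if_pos rfl, smul_eq_mul,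
      mul_one] at h1
    exact h1
  · rintro ⟨i', j'⟩ _ hne
    rw [Pi.smul_apply, coeff_smul, mon2, sg]
    by_cases hi : i' = i
    · subst hi
      rw [Pi.single_eq_same, X_pow_eq_monomial,
        X_pow_eq_monomial, monomial_mul, one_mul, coeff_monomial, if_neg, smul_zero]
      intro h
      have h2 := DFunLike.congr_fun h β
      rw [Finsupp.add_apply, Finsupp.add_apply, Finsupp.single_apply, Finsupp.single_apply,
        if_neg hβ.symm, Finsupp.single_apply, Finsupp.single_apply, if_neg hβ.symm, if_pos rfl,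
        if_pos rfl, zero_add, zero_add] at h2
      have h3 : j' = j := Fin.ext h2
      exact hne (by rw [h3])
    · rw [Pi.single_eq_of_ne (fun h => hi h.symm), coeff_zero, smul_zero]
  · intro h
    exact absurd (Finset.mem_univ _) h

/-- if the values on the forms `A` lie in the span of the derivatives and two more vectors, there
are few of them -/
theorem hess_dim (x y w1 : Fin (N + 1) → Ω) (hx : x 0 = 1) (hy : y 0 = 0)
    (β : Fin (N + 1)) (hβ : y β = 1) (hw1 : ∀ i, Chain_ph x y β (pdF a w1 i) = 0) (hw : w1 ≠ 0)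
    (H0 H1 : Fin r → MvPolynomial (Fin (N + 1)) Ω)
    (h : ∀ A : Fin r → MvPolynomial (Fin (N + 1)) Ω, (∀ i, (A i).IsHomogeneous (d i - 1)) →
      (fun i => Chain_ph x y β (A i)) ∈
        LinearMap.range (delL a x y β) ⊔ Submodule.span Ω {H0, H1}) :
    ∑ i, d i ≤ N + 2 := by
  classical
  have hβ0 : β ≠ 0 := by
    rintro rfl
    rw [hy] at hβ
    exact zero_ne_one hβ
  have hfd : FiniteDimensional Ω (Submodule.span Ω ({H0, H1} : Set (Fin r →
      MvPolynomial (Fin (N + 1)) Ω))) :=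
    FiniteDimensional.span_of_finite Ω (Set.toFinite _)
  have h1 : Module.finrank Ω (LinearMap.range (delL a x y β)) ≤ N := by
    have h2 := LinearMap.finrank_range_add_finrank_ker (delL a x y β)
    rw [Module.finrank_fintype_fun_eq_card, Fintype.card_fin] at h2
    have h3 : 0 < Module.finrank Ω (LinearMap.ker (delL a x y β)) := by
      have h4 : Nontrivial (LinearMap.ker (delL a x y β)) := by
        refine ⟨⟨⟨w1, ?_⟩, 0, ?_⟩⟩
        · rw [LinearMap.mem_ker]
          funext i
          exact hw1 i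
        · intro h5
          exact hw (congrArg Subtype.val h5)
      exact Module.finrank_pos
    omega
  have h2 : Module.finrank Ω (Submodule.span Ω ({H0, H1} : Set (Fin r →
      MvPolynomial (Fin (N + 1)) Ω))) ≤ 2 := by
    have h3 := finrank_span_le_card (R := Ω) ({H0, H1} : Set (Fin r →
      MvPolynomial (Fin (N + 1)) Ω))
    refine h3.trans ?_
    rw [Set.toFinset_card]
    exact (Fintype.card_le_of_injective _ Function.injective_id).trans (by
      rw [← Set.toFinset_card]
      refine (Finset.card_le_card (t := {H0, H1}) ?_).trans Finset.card_le_two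
      intro z hz
      simpa using hz)
  have h3 := Submodule.finrank_add_le_finrank_add_finrank (LinearMap.range (delL a x y β))
    (Submodule.span Ω ({H0, H1} : Set (Fin r → MvPolynomial (Fin (N + 1)) Ω)))
  have h4 : ∀ s, mon2 (Ω := Ω) d β s ∈
      LinearMap.range (delL a x y β) ⊔ Submodule.span Ω {H0, H1} := by
    rintro ⟨i, j⟩
    have h5 := h (sg i (X 0 ^ (d i - 1 - (j : ℕ)) * rl x β ^ (j : ℕ))) ?_
    · have h6 : (fun i' => Chain_ph x y β ((sg i (X 0 ^ (d i - 1 - (j : ℕ)) * rl x β ^ (j : ℕ)) :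
          Fin r → MvPolynomial (Fin (N + 1)) Ω) i')) = mon2 (Ω := Ω) d β ⟨i, j⟩ := by
        funext i'
        rw [mon2, sg, sg]
        by_cases hi : i' = i
        · subst hi
          rw [Pi.single_eq_same, Pi.single_eq_same, map_mul, map_pow, map_pow, ph_X, hx, hy,
            one_smul, zero_smul, add_zero, rl, map_sub, map_smul, ph_X, ph_X, hx, hy, hβ, one_smul,
            zero_smul, add_zero, one_smul, add_sub_cancel_left]
        · rw [Pi.single_eq_of_ne hi, Pi.single_eq_of_ne hi, map_zero]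
      rw [h6] at h5
      exact h5
    · intro i'
      rw [sg]
      by_cases hi : i' = i
      · subst hi
        rw [Pi.single_eq_same]
        have h6 : (rl x β : MvPolynomial (Fin (N + 1)) Ω).IsHomogeneous 1 := by
          unfold rl
          refine (isHomogeneous_X Ω β).sub ?_
          rw [smul_eq_C_mul]
          simpa using (isHomogeneous_C (Fin (N + 1)) (x β)).mul (isHomogeneous_X Ω 0)
        have h7 := ((isHomogeneous_X Ω (0 : Fin (N + 1))).pow (d i' - 1 - (j : ℕ))).mul
          (h6.pow (j : ℕ))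
        have h8 : 1 * (d i' - 1 - (j : ℕ)) + 1 * (j : ℕ) = d i' - 1 := by
          have := j.2
          omega
        rw [h8] at h7
        exact h7
      · rw [Pi.single_eq_of_ne hi]
        exact isHomogeneous_zero _ _ _
  have h5 := (mon2_li (Ω := Ω) (d := d) β hβ0)
  have h6 : Submodule.span Ω (Set.range (mon2 (Ω := Ω) d β)) ≤
      LinearMap.range (delL a x y β) ⊔ Submodule.span Ω {H0, H1} := by
    rw [Submodule.span_le]
    rintro _ ⟨s, rfl⟩
    exact h4 s
  have h7 := Submodule.finrank_mono h6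
  rw [finrank_span_eq_card h5, Fintype.card_sigma] at h7
  simp only [Fintype.card_fin] at h7
  omega

theorem four_snoc {V : Type*} (x y u v : V) :
    (Fin.snoc (![x, y, u] : Fin 3 → V) v : Fin 4 → V) = ![x, y, u, v] := by
  funext i
  fin_cases i <;> rfl

theorem three_snoc {V : Type*} (x y u : V) :
    (Fin.snoc (![x, y] : Fin 2 → V) u : Fin 3 → V) = ![x, y, u] := by
  funext i
  fin_cases i <;> rfl

theorem exists_zeta (x y w : Fin (N + 1) → Ω) (hli : LinearIndependent Ω ![x, y, w]) :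
    ∃ ζ : Fin (N + 1) → Ω, dt ζ x = 0 ∧ dt ζ y = 0 ∧ dt ζ w = 1 := by
  classical
  obtain ⟨f, hf⟩ : ∃ f : (Fin (N + 1) → Ω) →ₗ[Ω] Ω, f x = 0 ∧ f y = 0 ∧ f w = 1 := by
    let b := Module.Basis.extend hli.linearIndepOn_id
    have hmem : ∀ k : Fin 3, ![x, y, w] k ∈ hli.linearIndepOn_id.extend (Set.subset_univ _) :=
      fun k => hli.linearIndepOn_id.subset_extend _ ⟨k, rfl⟩
    have hb : ∀ k : Fin 3, b ⟨![x, y, w] k, hmem k⟩ = ![x, y, w] k := by
      intro k
      exact Module.Basis.extend_apply_self _ _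
    refine ⟨b.constr Ω fun v => if (v : Fin (N + 1) → Ω) = w then 1 else 0, ?_, ?_, ?_⟩
    · have h1 := b.constr_basis Ω (fun v => if (v : Fin (N + 1) → Ω) = w then (1 : Ω) else 0)
        ⟨![x, y, w] 0, hmem 0⟩
      rw [hb 0] at h1
      refine h1.trans (if_neg ?_)
      intro h2
      have h3 := hli.injective (a₁ := 0) (a₂ := 2) h2
      exact absurd h3 (by decide)
    · have h1 := b.constr_basis Ω (fun v => if (v : Fin (N + 1) → Ω) = w then (1 : Ω) else 0)
        ⟨![x, y, w] 1, hmem 1⟩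
      rw [hb 1] at h1
      refine h1.trans (if_neg ?_)
      intro h2
      have h3 := hli.injective (a₁ := 1) (a₂ := 2) h2
      exact absurd h3 (by decide)
    · have h1 := b.constr_basis Ω (fun v => if (v : Fin (N + 1) → Ω) = w then (1 : Ω) else 0)
        ⟨![x, y, w] 2, hmem 2⟩
      rw [hb 2] at h1
      exact h1.trans (if_pos rfl)
  have h1 : ∀ v : Fin (N + 1) → Ω, dt (fun l => f (Pi.single l 1)) v = f v := by
    intro v
    rw [dt]
    conv_rhs => rw [← Finset.univ_sum_single v, map_sum]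
    refine Finset.sum_congr rfl fun l _ => ?_
    have h2 : (Pi.single l (v l) : Fin (N + 1) → Ω) = v l • Pi.single l 1 := by
      rw [← Pi.single_smul, smul_eq_mul, mul_one]
    rw [h2, map_smul, smul_eq_mul, mul_comm]
  exact ⟨fun l => f (Pi.single l 1), by rw [h1, hf.1], by rw [h1, hf.2.1], by rw [h1, hf.2.2]⟩

/-- **the line moves in two directions while `x` does not move** -/
theorem hess_two (hD : ∀ s t : Ix (Fin (N + 1)) d, D t (a s) = if s = t then 1 else 0)
    (hd : ∀ i, 1 ≤ d i) {n : ℕ} (hn : n + r = N) (hn4 : 4 ≤ n)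
    (hnum : ∑ i, (d i + 1) + 1 = 2 * N) (x y w w1 : Fin (N + 1) → Ω) (hx : x 0 = 1)
    (hy : y 0 = 0) (β : Fin (N + 1)) (hβ : y β = 1)
    (hw1 : ∀ i, psi x y β (pdF a w1 i) = 0) (hli : LinearIndependent Ω ![x, y, w1])
    (hW : ∀ g : Fin r → MvPolynomial (Fin (N + 1)) Ω, (∀ i, (g i).IsHomogeneous (d i)) →
      (∀ i, psi x y β (g i) = 0) → ∃ c : Ω, dvC D x g = c • w) :
    ∃ g1 g2 : Fin r → MvPolynomial (Fin (N + 1)) Ω,
      ((∀ i, (g1 i).IsHomogeneous (d i)) ∧ (∀ i, psi x y β (g1 i) = 0) ∧ dvC D x g1 = 0) ∧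
      ((∀ i, (g2 i).IsHomogeneous (d i)) ∧ (∀ i, psi x y β (g2 i) = 0) ∧ dvC D x g2 = 0) ∧
      LinearIndependent Ω ![x, y, dvC D y g1, dvC D y g2] := by
  classical
  have hβ0 : β ≠ 0 := by
    rintro rfl
    rw [hy] at hβ
    exact zero_ne_one hβ
  by_contra hcon
  push Not at hcon
  have hxy : LinearIndependent Ω ![x, y] := by
    have h1 := hli
    rw [← three_snoc, linearIndependent_finSnoc] at h1
    exact h1.1
  -- the directions with `D_g x = 0`
  have hB : ∃ v1 : Fin (N + 1) → Ω, ∀ g : Fin r → MvPolynomial (Fin (N + 1)) Ω,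
      (∀ i, (g i).IsHomogeneous (d i)) → (∀ i, psi x y β (g i) = 0) → dvC D x g = 0 →
      dvC D y g ∈ Submodule.span Ω (Set.range ![x, y, v1]) := by
    by_cases hc : ∃ g1 : Fin r → MvPolynomial (Fin (N + 1)) Ω,
        (∀ i, (g1 i).IsHomogeneous (d i)) ∧ (∀ i, psi x y β (g1 i) = 0) ∧ dvC D x g1 = 0 ∧
        LinearIndependent Ω ![x, y, dvC D y g1]
    · obtain ⟨g1, h1, h2, h3, h4⟩ := hc
      refine ⟨dvC D y g1, fun g h5 h6 h7 => ?_⟩
      by_contra h8
      refine hcon g1 g ⟨h1, h2, h3⟩ ⟨h5, h6, h7⟩ ?_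
      rw [← four_snoc, linearIndependent_finSnoc]
      exact ⟨h4, h8⟩
    · refine ⟨0, fun g h5 h6 h7 => ?_⟩
      by_contra h8
      refine hc ⟨g, h5, h6, h7, ?_⟩
      rw [← three_snoc, linearIndependent_finSnoc]
      refine ⟨hxy, fun h9 => h8 ?_⟩
      refine Submodule.span_mono ?_ h9
      rintro _ ⟨k, rfl⟩
      fin_cases k
      · exact ⟨0, rfl⟩
      · exact ⟨1, rfl⟩
  obtain ⟨v1, hv1⟩ := hB
  -- all directions
  have hC : ∃ u0 v0 : Fin (N + 1) → Ω, ∀ g : Fin r → MvPolynomial (Fin (N + 1)) Ω,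
      (∀ i, (g i).IsHomogeneous (d i)) → (∀ i, psi x y β (g i) = 0) →
      ∃ α : Ω, dvC D x g = α • u0 ∧
        dvC D y g - α • v0 ∈ Submodule.span Ω (Set.range ![x, y, v1]) := by
    by_cases hc : ∃ g0 : Fin r → MvPolynomial (Fin (N + 1)) Ω,
        (∀ i, (g0 i).IsHomogeneous (d i)) ∧ (∀ i, psi x y β (g0 i) = 0) ∧ dvC D x g0 ≠ 0
    · obtain ⟨g0, h1, h2, h3⟩ := hc
      refine ⟨dvC D x g0, dvC D y g0, fun g h5 h6 => ?_⟩
      obtain ⟨c0, hc0⟩ := hW g0 h1 h2
      obtain ⟨c, hc⟩ := hW g h5 h6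
      have hc0' : c0 ≠ 0 := by
        rintro rfl
        rw [zero_smul] at hc0
        exact h3 hc0
      refine ⟨c / c0, ?_, ?_⟩
      · rw [hc, hc0, smul_smul, div_mul_cancel₀ _ hc0']
      · have h7 := hv1 (g - (c / c0) • g0) (fun i => ?_) (fun i => ?_) ?_
        · rw [map_sub, map_smul] at h7
          exact h7
        · rw [Pi.sub_apply, Pi.smul_apply]
          refine (h5 i).sub ?_
          have h8 := (isHomogeneous_C (Fin (N + 1)) (c / c0)).mul (h1 i)
          rwa [zero_add, ← smul_eq_C_mul] at h8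
        · rw [Pi.sub_apply, Pi.smul_apply, map_sub, map_smul, h6, h2, smul_zero, sub_zero]
        · rw [map_sub, map_smul, hc, hc0, smul_smul, div_mul_cancel₀ _ hc0', sub_self]
    · push Not at hc
      refine ⟨0, 0, fun g h5 h6 => ⟨0, ?_, ?_⟩⟩
      · rw [hc g h5 h6, zero_smul]
      · rw [zero_smul, sub_zero]
        exact hv1 g h5 h6 (hc g h5 h6)
  obtain ⟨u0, v0, hC⟩ := hC
  obtain ⟨ζ, hζx, hζy, hζw⟩ := exists_zeta x y w1 hli
  have hw1' : ∀ i, Chain_ph x y β (pdF a w1 i) = 0 := fun i =>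
    (psi_zero_iff x y β hβ0 _).1 (hw1 i)
  have hw10 : w1 ≠ 0 := hli.ne_zero 2
  have hkey := hess_dim (a := a) x y w1 hx hy β hβ hw1' hw10
    (fun i => kap x y β (pdF a w1 i) u0 * X 0 + kap x y β (pdF a w1 i) v0 * X β)
    (fun i => kap x y β (pdF a w1 i) v1 * X β) ?_
  · rw [Finset.sum_add_distrib] at hnum
    simp only [Finset.sum_const, Finset.card_univ, Fintype.card_fin, smul_eq_mul, mul_one] at hnum
    omega
  · intro A hA
    have hg : ∀ i, (lf ζ * A i).IsHomogeneous (d i) := by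
      intro i
      have h1 : (lf ζ : MvPolynomial (Fin (N + 1)) Ω).IsHomogeneous 1 := by
        unfold lf
        refine IsHomogeneous.sum _ _ _ fun j _ => ?_
        rw [smul_eq_C_mul]
        simpa using (isHomogeneous_C (Fin (N + 1)) (ζ j)).mul (isHomogeneous_X Ω j)
      have h2 := h1.mul (hA i)
      have h3 : 1 + (d i - 1) = d i := by
        have := hd i
        omega
      rwa [h3] at h2
    have hph : Chain_ph x y β (lf ζ) = 0 := ph_lf x y ζ β hζx hζy
    have hg0 : ∀ i, psi x y β (lf ζ * A i) = 0 := by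
      intro i
      rw [psi_zero_iff x y β hβ0, map_mul, hph, zero_mul]
    obtain ⟨α, h1, h2⟩ := hC (fun i => lf ζ * A i) hg hg0
    obtain ⟨e, he⟩ := (Submodule.mem_span_range_iff_exists_fun Ω).1 h2
    rw [Fin.sum_univ_three] at he
    have h3 : dvC D y (fun i => lf ζ * A i) = α • v0 + (e 0 • x + e 1 • y + e 2 • v1) := by
      have h4 : e 0 • x + e 1 • y + e 2 • v1 = dvC D y (fun i => lf ζ * A i) - α • v0 := he
      rw [h4]
      abel
    have h4 : (fun i => Chain_ph x y β (A i)) =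
        delL a x y β (-(dvC D w1 (fun i => lf ζ * A i))) +
        ((-α) • (fun i => kap x y β (pdF a w1 i) u0 * X 0 + kap x y β (pdF a w1 i) v0 * X β) +
        (-(e 2)) • (fun i => kap x y β (pdF a w1 i) v1 * X β)) := by
      funext i
      have h5 := hess_id hD x y w1 β hw1' (fun i => lf ζ * A i) hg i
      rw [pder_lf, hζw, one_smul, map_add, map_mul, hph, zero_mul, add_zero, h1, h3, kap_add,
        kap_add, kap_add, kap_smul, kap_smul, kap_smul, kap_smul, kap_smul,
        kap_x x y β hβ0 _ (hw1' i), kap_y x y β hβ0 _ (hw1' i), smul_zero, smul_zero, zero_add,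
        zero_add] at h5
      rw [Pi.add_apply, Pi.add_apply, Pi.smul_apply, Pi.smul_apply, map_neg, Pi.neg_apply,
        delL_apply]
      simp only [smul_eq_C_mul, C_neg] at h5 ⊢
      linear_combination h5
    rw [h4]
    refine Submodule.add_mem_sup ⟨_, rfl⟩ ?_
    exact Submodule.add_mem _ (Submodule.smul_mem _ _ (Submodule.subset_span (by simp)))
      (Submodule.smul_mem _ _ (Submodule.subset_span (by simp)))

end

end Pool.Agent.Helper50.HS
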