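import Pool.Agent.Helper10.CK.DgB
import Pool.Agent.Helper8.LG.KeyMinor

/-!
# HS-FOUR: the four-vector
-/

set_option autoImplicit false

namespace Pool.Agent.Helper50.HS

open scoped BigOperators
open MvPolynomial Pool.Agent.Helper10.CI Pool.Agent.Helper10.CK
open Pool.Agent.Helper8.LG (Bdd form mon Ix)
open Pool.Agent.Helper49.LN (cP mo hf pl)
open Pool.Agent.Helper6.QS (dv ev lf dt Par RatP)

section

variable {Ω : Type*} [Field Ω] [CharZero Ω] {N r n q : ℕ} {d : Fin r → ℕ}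
  {D : Ix (Fin (N + 1)) d → Derivation ℤ Ω Ω} {a : Ix (Fin (N + 1)) d → Ω} {B : Subfield Ω}
  {x y w : Fin (N + 1) → Ω} {β : Fin (N + 1)}

omit [CharZero Ω] in
theorem four_der (x y : Fin (N + 1) → Ω) (m b : Fin (N + 1)) (hm : x m ≠ 0)
    (hp : pl x y m b ≠ 0) (δ : Derivation ℤ Ω Ω) (hδ : ∀ l, δ (x l) = 0) (l : Fin (N + 1)) :
    δ (y l) = δ (y m / x m) * x m * (x l / x m) +
      δ (pl x y m b / x m) * (pl x y m l / pl x y m b) +
      pl x y m b / x m * δ (pl x y m l / pl x y m b) := by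
  have h1 : y l = (pl x y m b / x m) * (pl x y m l / pl x y m b) + (y m / x m) * x l := by
    have h2 : (pl x y m b / x m) * (pl x y m l / pl x y m b) = pl x y m l / x m := by
      field_simp
    rw [h2, pl]
    field_simp
    ring
  conv_lhs => rw [h1]
  rw [map_add, Derivation.leibniz, Derivation.leibniz, hδ]
  simp only [smul_eq_mul, mul_zero, zero_add]
  have h3 : δ (y m / x m) * x m * (x l / x m) = x l * δ (y m / x m) := by
    field_simp
  rw [h3]
  ring

omit [CharZero Ω] in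
theorem four_alg (x y z1 z2 : Fin (N + 1) → Ω) (m b : Fin (N + 1)) (hm : x m ≠ 0)
    (hp : pl x y m b ≠ 0) (c : Ω) (hc : c ≠ 0) (e1 f1 e2 f2 : Ω) (u1 u2 : Fin (N + 1) → Ω)
    (h1 : ∀ l, z1 l = e1 * (x l / x m) + f1 * (pl x y m l / pl x y m b) +
      pl x y m b / x m * u1 l)
    (h2 : ∀ l, z2 l = e2 * (x l / x m) + f2 * (pl x y m l / pl x y m b) +
      pl x y m b / x m * u2 l) (s : Fin 4 → Fin (N + 1)) :
    (Matrix.of fun i t => (![x, y, z1, z2] : Fin 4 → Fin (N + 1) → Ω) t (s i)).det =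
      (Matrix.of fun i t => (![fun l => x l / x m, fun l => pl x y m l / pl x y m b,
        fun l => u1 l / c, fun l => u2 l / c] : Fin 4 → Fin (N + 1) → Ω) t (s i)).det *
        (pl x y m b * (pl x y m b / x m * c) ^ 2) := by
  obtain ⟨A, hA⟩ : ∃ A : Matrix (Fin 4) (Fin 4) Ω, A = !![x m, y m, e1, e2;
      0, pl x y m b / x m, f1, f2; 0, 0, pl x y m b / x m * c, 0;
      0, 0, 0, pl x y m b / x m * c] := ⟨_, rfl⟩
  have hdet : A.det = pl x y m b * (pl x y m b / x m * c) ^ 2 := by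
    rw [Matrix.det_of_isUpperTriangular, Fin.prod_univ_four, hA]
    · simp only [Matrix.of_apply, Matrix.cons_val', Matrix.cons_val_zero, Matrix.cons_val_one,
        Matrix.cons_val]
      field_simp
    · intro i j hij
      rw [hA]
      fin_cases i <;> fin_cases j <;> first | rfl | (exfalso; revert hij; decide)
  rw [← hdet, ← Matrix.det_mul]
  congr 1
  ext i t
  rw [Matrix.mul_apply, Fin.sum_univ_four, hA]
  have hy : y (s i) = (pl x y m b / x m) * (pl x y m (s i) / pl x y m b) +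
      y m * (x (s i) / x m) := by
    have h2 : (pl x y m b / x m) * (pl x y m (s i) / pl x y m b) = pl x y m (s i) / x m := by
      field_simp
    rw [h2, pl]
    field_simp
    ring
  fin_cases t
  · simp
    field_simp
  · simp
    rw [hy]
    ring
  · simp
    rw [h1]
    field_simp
  · simp
    rw [h2]
    field_simp

theorem four' (hB : Frame D a B) (hn5 : 5 ≤ n) (hx0 : x 0 = 1) (hy0 : y 0 = 0) (hyb : y β = 1)
    (g₁ g₂ : Fin r → MvPolynomial (Fin (N + 1)) Ω) (hx₁ : dvC D x g₁ = 0) (hx₂ : dvC D x g₂ = 0)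
    (hb₁ : ∀ m b, x m ≠ 0 → pl x y m b ≠ 0 → ∀ i (J : Sym (Fin (N + 1)) (d i)),
      BdP D B x y m b (coeff (Multiset.toFinsupp (J : Multiset (Fin (N + 1)))) (g₁ i) *
        pl x y m b ^ (n - 3) / x m))
    (hb₂ : ∀ m b, x m ≠ 0 → pl x y m b ≠ 0 → ∀ i (J : Sym (Fin (N + 1)) (d i)),
      BdP D B x y m b (coeff (Multiset.toFinsupp (J : Multiset (Fin (N + 1)))) (g₂ i) *
        pl x y m b ^ (n - 3) / x m))
    (hli : LinearIndependent Ω ![x, y, fun l => Dg D g₁ (y l), fun l => Dg D g₂ (y l)]) :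
    ∀ j l, pl x y j l ∈ B := by
  classical
  obtain ⟨s, -, hs⟩ := Pool.Agent.Helper8.LG.exists_minor _ hli
  have h0 : pl x y 0 β = 1 := by
    rw [pl, hx0, hy0, hyb]
    ring
  refine bdp_line hB hx0 h0 _ hs fun m b hm hp => ?_
  have hD1 : ∀ l, Dg D g₁ (x l) = 0 := fun l => by rw [← dvC_Dg, hx₁, Pi.zero_apply]
  have hD2 : ∀ l, Dg D g₂ (x l) = 0 := fun l => by rw [← dvC_Dg, hx₂, Pi.zero_apply]
  obtain ⟨c, hc⟩ : ∃ c, c = x m / pl x y m b ^ (n - 3) := ⟨_, rfl⟩
  have hc0 : c ≠ 0 := by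
    rw [hc]
    exact div_ne_zero hm (pow_ne_zero _ hp)
  have hcc : ∀ z : Ω, z / c = z * pl x y m b ^ (n - 3) / x m := by
    intro z
    rw [hc]
    field_simp
  rw [four_alg x y _ _ m b hm hp c hc0 _ _ _ _ _ _
    (four_der x y m b hm hp (Dg D g₁) hD1) (four_der x y m b hm hp (Dg D g₂) hD2) s]
  have hbd : BdP D B x y m b (Matrix.of fun i t => (![fun l => x l / x m,
      fun l => pl x y m l / pl x y m b,
      fun l => Dg D g₁ (pl x y m l / pl x y m b) / c,
      fun l => Dg D g₂ (pl x y m l / pl x y m b) / c] : Fin 4 → Fin (N + 1) → Ω) t (s i)).det := by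
    rw [Matrix.det_apply]
    refine bdp_sum _ _ fun σ _ => ?_
    rw [Units.smul_def, zsmul_eq_mul]
    refine bdp_mul (bdp_const _ ?_) (bdp_prod _ _ fun i _ => ?_)
    · exact intCast_mem _ _
    · rw [Matrix.of_apply]
      have key : ∀ t : Fin 4, ∀ l, BdP D B x y m b ((![fun l => x l / x m,
          fun l => pl x y m l / pl x y m b,
          fun l => Dg D g₁ (pl x y m l / pl x y m b) / c,
          fun l => Dg D g₂ (pl x y m l / pl x y m b) / c] : Fin 4 → Fin (N + 1) → Ω) t l) := by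
        intro t l
        fin_cases t
        · exact bdp_x l
        · exact bdp_pl m l
        · refine dg_bd c hc0 g₁ (fun i J => ?_) m l
          rw [hcc]
          exact hb₁ m b hm hp i J
        · refine dg_bd c hc0 g₂ (fun i J => ?_) m l
          rw [hcc]
          exact hb₂ m b hm hp i J
      exact key _ _
  have hpow : pl x y m b * (pl x y m b / x m * c) ^ 2 * pl x y m b =
      (pl x y m b)⁻¹ ^ (2 * n - 10) := by
    obtain ⟨k, rfl⟩ : ∃ k, n = k + 5 := ⟨n - 5, by omega⟩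
    have e1 : k + 5 - 3 = k + 2 := by omega
    have e2 : 2 * (k + 5) - 10 = 2 * k := by omega
    rw [hc, e1, e2, inv_pow]
    field_simp
    ring
  rw [mul_assoc, hpow]
  exact bdp_mul hbd (bdp_pow (bdp_inv h0) _)

end

end Pool.Agent.Helper50.HS
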